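import Pool.Agent.Helper24.TF.M_F8w
import Pool.Agent.Helper47.TK.StK

/-!
# Project TK, modules K5, K6
-/

set_option autoImplicit false

namespace Pool.Agent.Helper24.TK

open Pool.Agent.Helper95.TT Pool.Agent.Helper24.TF Pool.Agent.Helper47.TK

theorem hK5 (hA2 : StA2) (hA7 : StA7) (hA8 : StA8) (hF1 : StF1) (hF3 : StF3) (hF6 : StF6) : StK5 :=
  hF8a hA2 hA7 hA8 hF1 hF3 hF6

theorem hK6 (hA2 : StA2) : StK6 := hF7r hA2

end Pool.Agent.Helper24.TK
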